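import Mathlib
import Pool.Agent.TH951.W.UB.Pl

/-!
# Places of the rational function field
-/

namespace Pool.Agent.TH951.W.UB

open Polynomial

section Deriv

variable (k : Type*) [Field k]

/-- The derivation `d/dt` of `k(t)`, as a function. -/
noncomputable def ratD (x : RatFunc k) : RatFunc k :=
  algebraMap k[X] (RatFunc k) (derivative x.num * x.denom - x.num * derivative x.denom) /
    algebraMap k[X] (RatFunc k) (x.denom ^ 2)

variable {k}

lemma ratD_mk (a b : k[X]) (hb : b ≠ 0) :
    ratD k (algebraMap k[X] (RatFunc k) a / algebraMap k[X] (RatFunc k) b) =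
      algebraMap k[X] (RatFunc k) (derivative a * b - a * derivative b) /
        algebraMap k[X] (RatFunc k) (b ^ 2) := by
  set x : RatFunc k := algebraMap k[X] (RatFunc k) a / algebraMap k[X] (RatFunc k) b with hx
  have h : x.num * b = a * x.denom := (RatFunc.num_mul_eq_mul_denom_iff hb).mpr hx
  have hm := RatFunc.denom_ne_zero x
  have h' := congrArg derivative h
  simp only [derivative_mul] at h'
  unfold ratD
  rw [div_eq_div_iff (RatFunc.algebraMap_ne_zero (pow_ne_zero 2 hm))
    (RatFunc.algebraMap_ne_zero (pow_ne_zero 2 hb)), ← map_mul, ← map_mul]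
  congr 1
  linear_combination (x.denom * b) * h' - (derivative x.denom * b + x.denom * derivative b) * h

lemma exists_mk (x : RatFunc k) : ∃ a b : k[X], b ≠ 0 ∧
    x = algebraMap k[X] (RatFunc k) a / algebraMap k[X] (RatFunc k) b :=
  ⟨x.num, x.denom, RatFunc.denom_ne_zero x, (RatFunc.num_div_denom x).symm⟩

lemma exists_mk2 (x y : RatFunc k) : ∃ a c b : k[X], b ≠ 0 ∧
    x = algebraMap k[X] (RatFunc k) a / algebraMap k[X] (RatFunc k) b ∧
    y = algebraMap k[X] (RatFunc k) c / algebraMap k[X] (RatFunc k) b := by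
  obtain ⟨a, b, hb, hx⟩ := exists_mk x
  obtain ⟨c, e, he, hy⟩ := exists_mk y
  have hb' := RatFunc.algebraMap_ne_zero hb
  have he' := RatFunc.algebraMap_ne_zero he
  refine ⟨a * e, c * b, b * e, mul_ne_zero hb he, ?_, ?_⟩
  · rw [hx, map_mul, map_mul, mul_div_mul_right _ _ he']
  · rw [hy, map_mul, map_mul, mul_comm (algebraMap k[X] (RatFunc k) b), mul_div_mul_right _ _ hb']

lemma ratD_add (x y : RatFunc k) : ratD k (x + y) = ratD k x + ratD k y := by
  obtain ⟨a, c, b, hb, rfl, rfl⟩ := exists_mk2 x y
  rw [← add_div, ← map_add, ratD_mk _ _ hb, ratD_mk _ _ hb, ratD_mk _ _ hb, ← add_div,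
    ← map_add]
  congr 2
  simp only [derivative_add]
  ring

lemma ratD_mul (x y : RatFunc k) : ratD k (x * y) = x * ratD k y + y * ratD k x := by
  obtain ⟨a, b, hb, rfl⟩ := exists_mk x
  obtain ⟨c, e, he, rfl⟩ := exists_mk y
  have hb' := RatFunc.algebraMap_ne_zero hb
  have he' := RatFunc.algebraMap_ne_zero he
  have h1 : algebraMap k[X] (RatFunc k) a / algebraMap k[X] (RatFunc k) b *
      (algebraMap k[X] (RatFunc k) c / algebraMap k[X] (RatFunc k) e) =
      algebraMap k[X] (RatFunc k) (a * c) / algebraMap k[X] (RatFunc k) (b * e) := by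
    rw [div_mul_div_comm]
    simp only [map_mul]
  rw [h1, ratD_mk _ _ (mul_ne_zero hb he), ratD_mk _ _ hb, ratD_mk _ _ he]
  rw [div_mul_div_comm, div_mul_div_comm, div_add_div _ _
    (mul_ne_zero hb' (RatFunc.algebraMap_ne_zero (pow_ne_zero 2 he)))
    (mul_ne_zero he' (RatFunc.algebraMap_ne_zero (pow_ne_zero 2 hb))),
    div_eq_div_iff (RatFunc.algebraMap_ne_zero (pow_ne_zero 2 (mul_ne_zero hb he)))
    (mul_ne_zero (mul_ne_zero hb' (RatFunc.algebraMap_ne_zero (pow_ne_zero 2 he)))
    (mul_ne_zero he' (RatFunc.algebraMap_ne_zero (pow_ne_zero 2 hb))))]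
  simp only [← map_mul, ← map_add]
  congr 1
  simp only [derivative_mul]
  ring

lemma ratD_alg (a : k[X]) : ratD k (algebraMap k[X] (RatFunc k) a) =
    algebraMap k[X] (RatFunc k) (derivative a) := by
  have h := ratD_mk a 1 one_ne_zero
  simpa using h

lemma ratD_smul (c : k) (x : RatFunc k) : ratD k (c • x) = c • ratD k x := by
  have h1 : ∀ y : RatFunc k, c • y = algebraMap k[X] (RatFunc k) (C c) * y := by
    intro y
    rw [Algebra.smul_def, RatFunc.algebraMap_C]
    rfl
  rw [h1, h1, ratD_mul, ratD_alg, derivative_C, map_zero, mul_zero, add_zero]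

variable (k) in
/-- The derivation `d/dt` of `k(t)`. -/
noncomputable def ratDer : Derivation k (RatFunc k) (RatFunc k) where
  toFun := ratD k
  map_add' := ratD_add
  map_smul' := by
    intro c x
    rw [ratD_smul]
    rfl
  map_one_eq_zero' := by
    have h := ratD_alg (k := k) 1
    simpa using h
  leibniz' := by
    intro x y
    exact ratD_mul x y

lemma ratDer_apply (x : RatFunc k) : ratDer k x = ratD k x := rfl

end Deriv

section Ord

variable {k : Type*} [Field k]

/-- The order at a finite place. -/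
noncomputable def ordc (c : k) (x : RatFunc k) : ℤ :=
  (x.num.rootMultiplicity c : ℤ) - x.denom.rootMultiplicity c

lemma ordc_mk (c : k) (a b : k[X]) (ha : a ≠ 0) (hb : b ≠ 0) :
    ordc c (algebraMap k[X] (RatFunc k) a / algebraMap k[X] (RatFunc k) b) =
      (a.rootMultiplicity c : ℤ) - b.rootMultiplicity c := by
  set x : RatFunc k := algebraMap k[X] (RatFunc k) a / algebraMap k[X] (RatFunc k) b with hx
  have h : x.num * b = a * x.denom := (RatFunc.num_mul_eq_mul_denom_iff hb).mpr hx
  have hm := RatFunc.denom_ne_zero x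
  have h1 : a * x.denom ≠ 0 := mul_ne_zero ha hm
  have h2 : x.num * b ≠ 0 := by rwa [h]
  have h3 := congrArg (rootMultiplicity c) h
  rw [rootMultiplicity_mul h1, rootMultiplicity_mul h2] at h3
  unfold ordc
  omega

lemma exists_mk' {x : RatFunc k} (hx : x ≠ 0) : ∃ a b : k[X], a ≠ 0 ∧ b ≠ 0 ∧
    x = algebraMap k[X] (RatFunc k) a / algebraMap k[X] (RatFunc k) b :=
  ⟨x.num, x.denom, RatFunc.num_ne_zero hx, RatFunc.denom_ne_zero x,
    (RatFunc.num_div_denom x).symm⟩

lemma ordc_mul (c : k) (x y : RatFunc k) (hx : x ≠ 0) (hy : y ≠ 0) :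
    ordc c (x * y) = ordc c x + ordc c y := by
  obtain ⟨a, b, ha, hb, rfl⟩ := exists_mk' hx
  obtain ⟨a', b', ha', hb', rfl⟩ := exists_mk' hy
  rw [div_mul_div_comm, ← map_mul, ← map_mul, ordc_mk _ _ _ (mul_ne_zero ha ha')
    (mul_ne_zero hb hb'), ordc_mk _ _ _ ha hb, ordc_mk _ _ _ ha' hb',
    rootMultiplicity_mul (mul_ne_zero ha ha'), rootMultiplicity_mul (mul_ne_zero hb hb')]
  push_cast
  ring

lemma ordc_add (c : k) (x y : RatFunc k) (m : ℤ) (hx : x ≠ 0) (hy : y ≠ 0) (hxy : x + y ≠ 0)
    (h1 : m ≤ ordc c x) (h2 : m ≤ ordc c y) : m ≤ ordc c (x + y) := by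
  obtain ⟨a, b, ha, hb, rfl⟩ := exists_mk' hx
  obtain ⟨a', b', ha', hb', rfl⟩ := exists_mk' hy
  rw [ordc_mk _ _ _ ha hb] at h1
  rw [ordc_mk _ _ _ ha' hb'] at h2
  rw [div_add_div _ _ (RatFunc.algebraMap_ne_zero hb) (RatFunc.algebraMap_ne_zero hb'),
    ← map_mul, ← map_mul, ← map_mul, ← map_add] at hxy ⊢
  have h0 : a * b' + b * a' ≠ 0 := by
    intro h
    rw [h, map_zero, zero_div] at hxy
    exact hxy rfl
  rw [ordc_mk _ _ _ h0 (mul_ne_zero hb hb')]
  have h3 := rootMultiplicity_add c h0
  rw [rootMultiplicity_mul (mul_ne_zero ha hb'), rootMultiplicity_mul (mul_ne_zero hb ha')] at h3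
  rw [rootMultiplicity_mul (mul_ne_zero hb hb')]
  push_cast
  rcases min_le_iff.mp h3 with h4 | h4
  · have : ((rootMultiplicity c a + rootMultiplicity c b' : ℕ) : ℤ) ≤
      rootMultiplicity c (a * b' + b * a') := by exact_mod_cast h4
    push_cast at this
    linarith
  · have : ((rootMultiplicity c b + rootMultiplicity c a' : ℕ) : ℤ) ≤
      rootMultiplicity c (a * b' + b * a') := by exact_mod_cast h4
    push_cast at this
    linarith

/-- The order at a finite place or at infinity. -/
noncomputable def ratOrd (v : Option k) (x : RatFunc k) : ℤ :=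
  match v with
  | none => - x.intDegree
  | some c => ordc c x

lemma intDegree_mk (a b : k[X]) (ha : a ≠ 0) (hb : b ≠ 0) :
    (algebraMap k[X] (RatFunc k) a / algebraMap k[X] (RatFunc k) b).intDegree =
      (a.natDegree : ℤ) - b.natDegree := by
  rw [RatFunc.intDegree_div (RatFunc.algebraMap_ne_zero ha) (RatFunc.algebraMap_ne_zero hb),
    RatFunc.intDegree_polynomial, RatFunc.intDegree_polynomial]

lemma ratD_ord_inf (x : RatFunc k) (hx : x ≠ 0) (hD : ratD k x ≠ 0) :
    (ratD k x).intDegree ≤ x.intDegree - 1 := by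
  obtain ⟨a, b, ha, hb, rfl⟩ := exists_mk' hx
  rw [ratD_mk _ _ hb] at hD ⊢
  have h0 : derivative a * b - a * derivative b ≠ 0 := by
    intro h
    rw [h, map_zero, zero_div] at hD
    exact hD rfl
  rw [intDegree_mk _ _ h0 (pow_ne_zero 2 hb), intDegree_mk _ _ ha hb, natDegree_pow]
  have h1 : (derivative a * b - a * derivative b).natDegree + 1 ≤ a.natDegree + b.natDegree := by
    have h2 : (derivative a * b - a * derivative b).degree < (a * b).degree := by
      refine lt_of_le_of_lt (degree_sub_le _ _) (max_lt ?_ ?_)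
      · rw [degree_mul, degree_mul]
        exact WithBot.add_lt_add_right (by simpa using hb) (degree_derivative_lt ha)
      · rw [degree_mul, degree_mul]
        exact WithBot.add_lt_add_left (by simpa using ha) (degree_derivative_lt hb)
    have h3 := natDegree_lt_natDegree h0 h2
    rw [natDegree_mul ha hb] at h3
    omega
  push_cast
  omega

lemma le_rm_sub (c : k) (p q : k[X]) (m : ℕ) (hp : p ≠ 0 → m ≤ p.rootMultiplicity c)
    (hq : q ≠ 0 → m ≤ q.rootMultiplicity c) (h : p - q ≠ 0) :
    m ≤ (p - q).rootMultiplicity c := by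
  rw [le_rootMultiplicity_iff h]
  apply dvd_sub
  · by_cases hp0 : p = 0
    · rw [hp0]
      exact dvd_zero _
    · exact (le_rootMultiplicity_iff hp0).mp (hp hp0)
  · by_cases hq0 : q = 0
    · rw [hq0]
      exact dvd_zero _
    · exact (le_rootMultiplicity_iff hq0).mp (hq hq0)

lemma ratD_ordc (c : k) (x : RatFunc k) (hx : x ≠ 0) (hD : ratD k x ≠ 0) :
    ordc c x - 1 ≤ ordc c (ratD k x) := by
  obtain ⟨a, b, ha, hb, rfl⟩ := exists_mk' hx
  rw [ratD_mk _ _ hb] at hD ⊢
  have h0 : derivative a * b - a * derivative b ≠ 0 := by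
    intro h
    rw [h, map_zero, zero_div] at hD
    exact hD rfl
  rw [ordc_mk _ _ _ h0 (pow_ne_zero 2 hb), ordc_mk _ _ _ ha hb]
  have h2 : (b ^ 2).rootMultiplicity c = 2 * b.rootMultiplicity c := by
    rw [pow_two, rootMultiplicity_mul (mul_ne_zero hb hb)]
    ring
  have h1 := le_rm_sub c (derivative a * b) (a * derivative b)
    (a.rootMultiplicity c + b.rootMultiplicity c - 1) (by
      intro h
      rw [rootMultiplicity_mul h]
      have := rootMultiplicity_sub_one_le_derivative_rootMultiplicity_of_ne_zero a c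
        (left_ne_zero_of_mul h)
      omega) (by
      intro h
      rw [rootMultiplicity_mul h]
      have := rootMultiplicity_sub_one_le_derivative_rootMultiplicity_of_ne_zero b c
        (right_ne_zero_of_mul h)
      omega) h0
  rw [h2]
  push_cast
  omega

lemma ratD_ordc' (c : k) (x : RatFunc k) (hx : x ≠ 0) (hD : ratD k x ≠ 0)
    (h : 0 ≤ ordc c x) : 0 ≤ ordc c (ratD k x) := by
  have hm := RatFunc.denom_ne_zero x
  have hn := RatFunc.num_ne_zero hx
  have hb0 : x.denom.rootMultiplicity c = 0 := by
    by_contra hcon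
    have h1 : x.denom.IsRoot c := (rootMultiplicity_pos hm).mp (Nat.pos_of_ne_zero hcon)
    have h2 : x.num.IsRoot c := by
      rw [← rootMultiplicity_pos hn]
      unfold ordc at h
      omega
    obtain ⟨u, w, huw⟩ := RatFunc.isCoprime_num_denom x
    have h3 := congrArg (eval c) huw
    rw [IsRoot.def] at h1 h2
    simp [h1, h2] at h3
  unfold ratD at hD ⊢
  have h0 : derivative x.num * x.denom - x.num * derivative x.denom ≠ 0 := by
    intro h
    rw [h, map_zero, zero_div] at hD
    exact hD rfl
  rw [ordc_mk _ _ _ h0 (pow_ne_zero 2 hm)]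
  have h2 : (x.denom ^ 2).rootMultiplicity c = 2 * x.denom.rootMultiplicity c := by
    rw [pow_two, rootMultiplicity_mul (mul_ne_zero hm hm)]
    ring
  rw [h2, hb0]
  simp

lemma ratD_ord (v : Option k) (x : RatFunc k) (hx : x ≠ 0) (hD : ratD k x ≠ 0) :
    ratOrd v x - 1 ≤ ratOrd v (ratD k x) := by
  cases v with
  | none =>
    have := ratD_ord_inf x hx hD
    simp only [ratOrd]
    linarith
  | some c => exact ratD_ordc c x hx hD

lemma ratD_ord' (v : Option k) (x : RatFunc k) (hx : x ≠ 0) (hD : ratD k x ≠ 0)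
    (h : 0 ≤ ratOrd v x) : 0 ≤ ratOrd v (ratD k x) := by
  cases v with
  | none =>
    have := ratD_ord_inf x hx hD
    simp only [ratOrd] at h ⊢
    linarith
  | some c => exact ratD_ordc' c x hx hD h

lemma iter_ne {x : RatFunc k} (j : ℕ) (h : ((ratDer k)^[j + 1]) x ≠ 0) :
    ((ratDer k)^[j]) x ≠ 0 := by
  intro h1
  rw [Function.iterate_succ_apply', h1, map_zero] at h
  exact h rfl

end Ord

section Place

variable (k : Type*) [Field k] [IsAlgClosed k]

open Classical in
lemma rat_sum (x : RatFunc k) (hx : x ≠ 0) (T : Finset k)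
    (hT : ∀ c, c ∉ T → x.num.rootMultiplicity c = 0 ∧ x.denom.rootMultiplicity c = 0) :
    ∑ c ∈ T, ordc c x = x.intDegree := by
  have key : ∀ p : k[X], p ≠ 0 → (∀ c, c ∉ T → p.rootMultiplicity c = 0) →
      ∑ c ∈ T, p.rootMultiplicity c = p.natDegree := by
    intro p hp h
    have h1 : ∀ c ∈ p.roots, c ∈ T := by
      intro c hc
      by_contra hcT
      have h2 := h c hcT
      have h3 := (rootMultiplicity_pos hp).mpr ((mem_roots hp).mp hc)
      omega
    have h2 := Multiset.sum_count_eq_card h1
    simp only [count_roots] at h2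
    rw [h2]
    exact (IsAlgClosed.splits p).natDegree_eq_card_roots.symm
  unfold ordc RatFunc.intDegree
  rw [Finset.sum_sub_distrib]
  have h1 := key x.num (RatFunc.num_ne_zero hx) fun c hc => (hT c hc).1
  have h2 := key x.denom (RatFunc.denom_ne_zero x) fun c hc => (hT c hc).2
  rw [← h1, ← h2]
  push_cast
  rfl

lemma rat_fin (x : RatFunc k) (hx : x ≠ 0) : {v | ratOrd v x ≠ 0}.Finite := by
  classical
  have h1 : {v | ratOrd v x ≠ 0} ⊆
      ((insert none ((x.num.roots.toFinset ∪ x.denom.roots.toFinset).image some) :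
        Finset (Option k)) : Set (Option k)) := by
    intro v hv
    cases v with
    | none => simp
    | some c =>
      simp only [Finset.coe_insert, Finset.coe_image, Set.mem_insert_iff, reduceCtorEq, false_or,
        Set.mem_image, Finset.mem_coe, Finset.mem_union, Multiset.mem_toFinset,
        Option.some.injEq, exists_eq_right]
      by_contra hcon
      push Not at hcon
      apply hv
      simp only [ratOrd, ordc]
      have h2 : x.num.rootMultiplicity c = 0 := by
        by_contra h
        exact hcon.1 ((mem_roots (RatFunc.num_ne_zero hx)).mpr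
          ((rootMultiplicity_pos (RatFunc.num_ne_zero hx)).mp (Nat.pos_of_ne_zero h)))
      have h3 : x.denom.rootMultiplicity c = 0 := by
        by_contra h
        exact hcon.2 ((mem_roots (RatFunc.denom_ne_zero x)).mpr
          ((rootMultiplicity_pos (RatFunc.denom_ne_zero x)).mp (Nat.pos_of_ne_zero h)))
      rw [h2, h3]
      simp
  exact (Finset.finite_toSet _).subset h1

lemma rat_prod (x : RatFunc k) (hx : x ≠ 0) (S : Finset (Option k))
    (hS : ∀ v, v ∉ S → 0 ≤ ratOrd v x) : ∑ v ∈ S, ratOrd v x ≤ 0 := by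
  classical
  set T : Finset k := (x.num.roots.toFinset ∪ x.denom.roots.toFinset) ∪ S.eraseNone with hT
  have h0 : ∀ c, c ∉ T → x.num.rootMultiplicity c = 0 ∧ x.denom.rootMultiplicity c = 0 := by
    intro c hc
    simp only [hT, Finset.mem_union, Multiset.mem_toFinset, not_or] at hc
    constructor
    · by_contra h
      exact hc.1.1 ((mem_roots (RatFunc.num_ne_zero hx)).mpr
        ((rootMultiplicity_pos (RatFunc.num_ne_zero hx)).mp (Nat.pos_of_ne_zero h)))
    · by_contra h
      exact hc.1.2 ((mem_roots (RatFunc.denom_ne_zero x)).mpr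
        ((rootMultiplicity_pos (RatFunc.denom_ne_zero x)).mp (Nat.pos_of_ne_zero h)))
  have h1 := rat_sum k x hx T h0
  have h2 : ∑ v ∈ T.insertNone, ratOrd v x = 0 := by
    rw [Finset.sum_insertNone]
    have h3 : ratOrd none x = - x.intDegree := rfl
    have h4 : ∑ c ∈ T, ratOrd (some c) x = ∑ c ∈ T, ordc c x := rfl
    rw [h3, h4, h1]
    ring
  have hST : S ⊆ T.insertNone := by
    intro v hv
    rw [Finset.mem_insertNone]
    intro c hc
    simp only [hT, Finset.mem_union, Finset.mem_eraseNone]
    right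
    rw [Option.mem_def] at hc
    rwa [← hc]
  rw [← Finset.sum_sdiff hST] at h2
  have h5 : 0 ≤ ∑ v ∈ T.insertNone \ S, ratOrd v x :=
    Finset.sum_nonneg fun v hv => hS v (Finset.mem_sdiff.mp hv).2
  linarith

lemma rat_const (x : RatFunc k) (hx : x ≠ 0) (h : ∀ v, 0 ≤ ratOrd v x) :
    ∃ c : k, algebraMap k (RatFunc k) c = x := by
  have hm := RatFunc.denom_ne_zero x
  have hn := RatFunc.num_ne_zero hx
  have h1 : x.denom.natDegree = 0 := by
    by_contra hcon
    have h2 : x.denom.degree ≠ 0 := by
      intro h3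
      exact hcon (natDegree_eq_zero_iff_degree_le_zero.mpr (le_of_eq h3))
    obtain ⟨c, hc⟩ := IsAlgClosed.exists_root _ h2
    have h3 := h (some c)
    have h4 : 0 < x.denom.rootMultiplicity c := (rootMultiplicity_pos hm).mpr hc
    have h5 : x.num.IsRoot c := by
      rw [← rootMultiplicity_pos hn]
      simp only [ratOrd, ordc] at h3
      omega
    obtain ⟨u, w, huw⟩ := RatFunc.isCoprime_num_denom x
    have h6 := congrArg (eval c) huw
    rw [IsRoot.def] at hc h5
    simp [hc, h5] at h6
  have h2 : x.denom = 1 := (RatFunc.monic_denom x).natDegree_eq_zero.mp h1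
  have h3 := h none
  simp only [ratOrd, RatFunc.intDegree, h1] at h3
  have h4 : x.num.natDegree = 0 := by
    omega
  obtain ⟨c, hc⟩ := natDegree_eq_zero.mp h4
  refine ⟨c, ?_⟩
  rw [← RatFunc.num_div_denom x, h2, ← hc, map_one, div_one, RatFunc.algebraMap_C]
  rfl

lemma ratOrd_alg (v : Option k) (c : k) (hc : c ≠ 0) :
    ratOrd v (algebraMap k (RatFunc k) c) = 0 := by
  have h1 : algebraMap k (RatFunc k) c = algebraMap k[X] (RatFunc k) (C c) := by
    rw [RatFunc.algebraMap_C]
    rfl
  cases v with
  | none =>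
    simp only [ratOrd]
    rw [h1, RatFunc.intDegree_polynomial, natDegree_C]
    simp
  | some a =>
    have h2 := ordc_mk a (C c) 1 (C_ne_zero.mpr hc) one_ne_zero
    rw [map_one, div_one] at h2
    simp only [ratOrd]
    rw [h1, h2, rootMultiplicity_C, ← C_1, rootMultiplicity_C]
    simp

/-- The places of `k(t)`. -/
noncomputable def ratPlaces : PlaceData k (RatFunc k) where
  Pl := Option k
  ord := ratOrd
  wt := fun _ => 1
  wt_nonneg := fun _ => zero_le_one
  wt_one := fun _ => le_rfl
  ord_mul := by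
    intro v x y hx hy
    cases v with
    | none =>
      simp only [ratOrd, RatFunc.intDegree_mul hx hy]
      ring
    | some c => exact ordc_mul c x y hx hy
  ord_add := by
    intro v x y m hx hy hxy h1 h2
    cases v with
    | none =>
      simp only [ratOrd] at h1 h2 ⊢
      have h3 := RatFunc.intDegree_add_le hy hxy
      rcases le_max_iff.mp h3 with h4 | h4
      · linarith
      · linarith
    | some c => exact ordc_add c x y m hx hy hxy h1 h2
  ord_alg := ratOrd_alg k
  fin := rat_fin k
  prod_formula := by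
    intro x hx S hS
    simp only [one_mul]
    exact rat_prod k x hx S hS
  const := rat_const k
  D := ratDer k
  loss := fun _ => 0
  loss_nonneg := fun _ => le_rfl
  lossS := ∅
  loss_supp := fun _ _ => rfl
  lossT := 0
  loss_sum := by simp
  D_ord := by
    intro v x j m hx hD hm
    simp only [mul_zero, sub_zero]
    induction j with
    | zero => simpa using hm
    | succ j ih =>
      have h1 := iter_ne j hD
      have h2 := ih h1
      rw [Function.iterate_succ_apply'] at hD ⊢
      have h3 := ratD_ord v _ h1 hD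
      rw [ratDer_apply]
      push_cast
      linarith
  D_ord' := by
    intro v x j hx hD hm
    simp only [mul_zero]
    induction j with
    | zero => simpa using hm
    | succ j ih =>
      have h1 := iter_ne j hD
      have h2 := ih h1
      rw [Function.iterate_succ_apply'] at hD ⊢
      exact ratD_ord' v _ h1 hD h2

end Place

end Pool.Agent.TH951.W.UB
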