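import Mathlib

/-!
# Valuations of a Dedekind domain and the product formula
-/

namespace Pool.Agent.TH951.W.UB

open IsDedekindDomain HeightOneSpectrum WithZero

section OrdP

variable {S K : Type*} [CommRing S] [IsDedekindDomain S] [Field K] [Algebra S K]
  [IsFractionRing S K]

/-- The additive valuation at a prime. -/
noncomputable def ordP (P : HeightOneSpectrum S) (x : K) : ℤ := - log (P.valuation K x)

lemma val_ne_zero (P : HeightOneSpectrum S) {x : K} (hx : x ≠ 0) : P.valuation K x ≠ 0 :=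
  (Valuation.ne_zero_iff _).mpr hx

lemma ordP_mul (P : HeightOneSpectrum S) {x y : K} (hx : x ≠ 0) (hy : y ≠ 0) :
    ordP P (x * y) = ordP P x + ordP P y := by
  unfold ordP
  rw [map_mul, log_mul (val_ne_zero P hx) (val_ne_zero P hy)]
  ring

lemma le_ordP_iff (P : HeightOneSpectrum S) {x : K} (hx : x ≠ 0) (m : ℤ) :
    m ≤ ordP P x ↔ P.valuation K x ≤ exp (-m) := by
  unfold ordP
  rw [le_neg, log_le_iff_le_exp (val_ne_zero P hx)]

lemma ordP_add (P : HeightOneSpectrum S) {x y : K} (m : ℤ) (hx : x ≠ 0) (hy : y ≠ 0)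
    (hxy : x + y ≠ 0) (h1 : m ≤ ordP P x) (h2 : m ≤ ordP P y) : m ≤ ordP P (x + y) := by
  rw [le_ordP_iff P hx] at h1
  rw [le_ordP_iff P hy] at h2
  rw [le_ordP_iff P hxy]
  exact Valuation.map_add_le _ h1 h2

lemma ordP_one (P : HeightOneSpectrum S) : ordP P (1 : K) = 0 := by
  unfold ordP
  rw [map_one, log_one, neg_zero]

lemma ordP_alg_nonneg (P : HeightOneSpectrum S) {s : S} (hs : s ≠ 0) :
    0 ≤ ordP P (algebraMap S K s) := by
  rw [le_ordP_iff P (by simpa using hs)]
  simpa using P.valuation_le_one s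

lemma ordP_div (P : HeightOneSpectrum S) {x y : K} (hx : x ≠ 0) (hy : y ≠ 0) :
    ordP P (x / y) = ordP P x - ordP P y := by
  have h := ordP_mul P (x := x / y) (y := y) (div_ne_zero hx hy) hy
  rw [div_mul_cancel₀ _ hy] at h
  linarith

lemma ordP_unit (P : HeightOneSpectrum S) (u : Sˣ) : ordP P (algebraMap S K u) = 0 := by
  have h1 := ordP_alg_nonneg (K := K) P u.ne_zero
  have h2 := ordP_alg_nonneg (K := K) P (u⁻¹).ne_zero
  have h3 := ordP_mul P (x := algebraMap S K u) (y := algebraMap S K (u⁻¹ : Sˣ))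
    (by simp) (by simp)
  rw [← map_mul, Units.mul_inv, map_one, ordP_one] at h3
  linarith

lemma le_ordP_alg_iff (P : HeightOneSpectrum S) {s : S} (hs : s ≠ 0) (n : ℕ) :
    (n : ℤ) ≤ ordP P (algebraMap S K s) ↔ s ∈ P.asIdeal ^ n := by
  rw [le_ordP_iff P (by simpa using hs), valuation_of_algebraMap, intValuation_le_pow_iff_mem]

lemma ordP_eq_count (P : HeightOneSpectrum S) {s : S} (hs : s ≠ 0) :
    ordP P (algebraMap S K s) =
      ((Associates.mk P.asIdeal).count (Associates.mk (Ideal.span {s})).factors : ℤ) := by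
  unfold ordP
  rw [valuation_of_algebraMap, intValuation_if_neg _ hs, log_exp, neg_neg]

lemma exists_frac (x : K) (hx : x ≠ 0) : ∃ a b : S, a ≠ 0 ∧ b ≠ 0 ∧
    x = algebraMap S K a / algebraMap S K b := by
  obtain ⟨a, b, hb, rfl⟩ := IsFractionRing.div_surjective (A := S) x
  refine ⟨a, b, ?_, nonZeroDivisors.ne_zero hb, rfl⟩
  rintro rfl
  simp at hx

lemma finite_ordP_alg (s : S) (hs : s ≠ 0) :
    {P : HeightOneSpectrum S | ordP P (algebraMap S K s) ≠ 0}.Finite := by
  have h1 : (Ideal.span {s}) ≠ ⊥ := by simpa using hs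
  refine (Ideal.finite_factors h1).subset ?_
  intro P hP
  rw [Set.mem_ofPred_eq] at hP ⊢
  have h2 := ordP_alg_nonneg (K := K) P hs
  have h3 : ((1 : ℕ) : ℤ) ≤ ordP P (algebraMap S K s) := by
    push_cast
    omega
  rw [le_ordP_alg_iff P hs, pow_one] at h3
  rw [Ideal.dvd_span_singleton]
  exact h3

lemma finite_ordP (x : K) (hx : x ≠ 0) : {P : HeightOneSpectrum S | ordP P x ≠ 0}.Finite := by
  obtain ⟨a, b, ha, hb, rfl⟩ := exists_frac (S := S) x hx
  refine ((finite_ordP_alg (K := K) a ha).union (finite_ordP_alg (K := K) b hb)).subset ?_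
  intro P hP
  rw [Set.mem_ofPred_eq, ordP_div P (by simpa using ha) (by simpa using hb)] at hP
  by_contra hcon
  simp only [Set.mem_union, Set.mem_ofPred_eq, not_or, not_not] at hcon
  apply hP
  rw [hcon.1, hcon.2, sub_zero]

lemma exists_of_ordP_nonneg (x : K) (hx : x ≠ 0) (h : ∀ P : HeightOneSpectrum S, 0 ≤ ordP P x) :
    ∃ s : S, algebraMap S K s = x := by
  apply mem_integers_of_valuation_le_one
  intro P
  have := (le_ordP_iff P hx 0).mp (h P)
  simpa using this

/-- If `x` is integral at `P`, it has a denominator prime to `P`. -/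
lemma exists_frac_of_nonneg (P : HeightOneSpectrum S) (x : K) (hx : x ≠ 0) (h : 0 ≤ ordP P x) :
    ∃ a b : S, a ≠ 0 ∧ b ≠ 0 ∧ ordP P (algebraMap S K b) = 0 ∧
      x = algebraMap S K a / algebraMap S K b := by
  have h1 : P.valuation K x ≤ 1 := by simpa using (le_ordP_iff P hx 0).mp h
  obtain ⟨a, b, h2⟩ := P.exists_primeCompl_mul_eq_of_integer x h1
  have hb0 : (b : S) ≠ 0 := by
    intro h0
    exact b.2 (by rw [h0]; exact P.asIdeal.zero_mem)
  have hb0' : algebraMap S K b ≠ 0 := by simpa using hb0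
  refine ⟨a, b, ?_, hb0, ?_, ?_⟩
  · rintro rfl
    rw [map_zero] at h2
    rcases mul_eq_zero.mp h2 with h3 | h3
    · exact hx h3
    · exact hb0' h3
  · have h3 := ordP_alg_nonneg (K := K) P hb0
    by_contra h4
    have h5 : ((1 : ℕ) : ℤ) ≤ ordP P (algebraMap S K (b : S)) := by
      push_cast
      omega
    rw [le_ordP_alg_iff P hb0, pow_one] at h5
    exact b.2 h5
  · rw [eq_div_iff hb0', ← h2]

end OrdP

section Deriv

variable {S K : Type*} [CommRing S] [IsDedekindDomain S] [Field K] [Algebra S K]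
  [IsFractionRing S K]

omit [IsDedekindDomain S] [IsFractionRing S K] in
/-- Powers of ideals under a derivation with denominator `δ`. -/
lemma deriv_pow (D : Derivation ℤ K K) (δ : S)
    (hδ : ∀ s : S, ∃ s' : S, algebraMap S K s' = algebraMap S K δ * D (algebraMap S K s))
    (I : Ideal S) (m : ℕ) : ∀ a ∈ I ^ (m + 1),
      ∃ s' ∈ I ^ m, algebraMap S K s' = algebraMap S K δ * D (algebraMap S K a) := by
  induction m with
  | zero =>
    intro a _
    obtain ⟨s', hs'⟩ := hδ a
    exact ⟨s', by simp, hs'⟩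
  | succ m ih =>
    intro a ha
    rw [pow_succ'] at ha
    refine Submodule.mul_induction_on ha ?_ ?_
    · intro p hp r hr
      obtain ⟨r', hr', hr''⟩ := ih r hr
      obtain ⟨p', hp'⟩ := hδ p
      refine ⟨p * r' + r * p', ?_, ?_⟩
      · apply Ideal.add_mem
        · rw [pow_succ']
          exact Ideal.mul_mem_mul hp hr'
        · exact Ideal.mul_mem_right _ _ hr
      · rw [map_add, map_mul, map_mul, map_mul, hr'', hp', Derivation.leibniz]
        simp only [smul_eq_mul]
        ring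
    · intro x y hx hy
      obtain ⟨x', hx', hx''⟩ := hx
      obtain ⟨y', hy', hy''⟩ := hy
      refine ⟨x' + y', Ideal.add_mem _ hx' hy', ?_⟩
      rw [map_add, map_add, map_add, hx'', hy'']
      ring

lemma ordP_deriv_alg (D : Derivation ℤ K K) (δ : S)
    (hδ : ∀ s : S, ∃ s' : S, algebraMap S K s' = algebraMap S K δ * D (algebraMap S K s))
    (P : HeightOneSpectrum S) (a : S) (ha : a ≠ 0)
    (h0 : algebraMap S K δ * D (algebraMap S K a) ≠ 0) :
    ordP P (algebraMap S K a) - 1 ≤ ordP P (algebraMap S K δ * D (algebraMap S K a)) ∧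
      0 ≤ ordP P (algebraMap S K δ * D (algebraMap S K a)) := by
  have h1 := ordP_alg_nonneg (K := K) P ha
  have key : ∀ s' : S, algebraMap S K s' = algebraMap S K δ * D (algebraMap S K a) → s' ≠ 0 := by
    intro s' hs' h
    rw [← hs', h, map_zero] at h0
    exact h0 rfl
  obtain ⟨s0, hs0⟩ := hδ a
  have h2 : 0 ≤ ordP P (algebraMap S K δ * D (algebraMap S K a)) := by
    rw [← hs0]
    exact ordP_alg_nonneg P (key s0 hs0)
  refine ⟨?_, h2⟩
  obtain ⟨n, hn⟩ := Int.eq_ofNat_of_zero_le h1
  cases n with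
  | zero =>
    rw [hn]
    push_cast
    linarith
  | succ m =>
    have h3 : a ∈ P.asIdeal ^ (m + 1) := by
      rw [← le_ordP_alg_iff (K := K) P ha, hn]
    obtain ⟨s', hs', hs''⟩ := deriv_pow D δ hδ P.asIdeal m a h3
    rw [← le_ordP_alg_iff (K := K) P (key s' hs''), hs''] at hs'
    rw [hn]
    push_cast
    linarith

/-- The derivation lowers the order by at most one plus the loss. -/
lemma ordP_deriv (D : Derivation ℤ K K) (δ : S) (hδ0 : δ ≠ 0)
    (hδ : ∀ s : S, ∃ s' : S, algebraMap S K s' = algebraMap S K δ * D (algebraMap S K s))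
    (P : HeightOneSpectrum S) (a b : S) (ha : a ≠ 0) (hb : b ≠ 0)
    (h0 : D (algebraMap S K a / algebraMap S K b) ≠ 0) :
    ordP P (algebraMap S K a / algebraMap S K b) - 1 - ordP P (algebraMap S K δ) ≤
      ordP P (D (algebraMap S K a / algebraMap S K b)) ∧
    (ordP P (algebraMap S K b) = 0 → - ordP P (algebraMap S K δ) ≤
      ordP P (D (algebraMap S K a / algebraMap S K b))) := by
  set A := algebraMap S K a with hA
  set B := algebraMap S K b with hB
  set E := algebraMap S K δ with hE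
  have hA0 : A ≠ 0 := by simpa [hA] using ha
  have hB0 : B ≠ 0 := by simpa [hB] using hb
  have hE0 : E ≠ 0 := by simpa [hE] using hδ0
  have hid : E * (B * B) * D (A / B) = B * (E * D A) + -(A * (E * D B)) := by
    have h1 : D A = (A / B) * D B + B * D (A / B) := by
      have h2 : D ((A / B) * B) = (A / B) * D B + B * D (A / B) := by
        rw [Derivation.leibniz]
        simp only [smul_eq_mul]
      rwa [div_mul_cancel₀ _ hB0] at h2
    rw [h1]
    field_simp
    ring
  have hordB := ordP_alg_nonneg (K := K) P hb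
  rw [← hB] at hordB
  have hlhs : E * (B * B) * D (A / B) ≠ 0 := mul_ne_zero (mul_ne_zero hE0 (mul_ne_zero hB0 hB0)) h0
  have hl : ordP P (E * (B * B) * D (A / B)) =
      ordP P E + (ordP P B + ordP P B) + ordP P (D (A / B)) := by
    rw [ordP_mul P (mul_ne_zero hE0 (mul_ne_zero hB0 hB0)) h0,
      ordP_mul P hE0 (mul_ne_zero hB0 hB0), ordP_mul P hB0 hB0]
  have hneg : ∀ x : K, x ≠ 0 → ordP P (-x) = ordP P x := by
    intro x _
    unfold ordP
    rw [Valuation.map_neg]
  have key : ∀ m : ℤ, (B * (E * D A) ≠ 0 → m ≤ ordP P (B * (E * D A))) →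
      (A * (E * D B) ≠ 0 → m ≤ ordP P (A * (E * D B))) →
      m ≤ ordP P (E * (B * B) * D (A / B)) := by
    intro m h1 h2
    rw [hid]
    rw [hid] at hlhs
    by_cases h3 : B * (E * D A) = 0
    · rw [h3, zero_add] at hlhs ⊢
      rw [hneg _ (neg_ne_zero.mp hlhs)]
      exact h2 (neg_ne_zero.mp hlhs)
    · by_cases h4 : A * (E * D B) = 0
      · rw [h4, neg_zero, add_zero]
        exact h1 h3
      · exact ordP_add P m h3 (neg_ne_zero.mpr h4) hlhs (h1 h3) (by rw [hneg _ h4]; exact h2 h4)
  constructor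
  · have h1 := key (ordP P A + ordP P B - 1) (by
      intro h
      have h2 := (ordP_deriv_alg D δ hδ P a ha (right_ne_zero_of_mul h)).1
      rw [ordP_mul P hB0 (right_ne_zero_of_mul h)]
      linarith) (by
      intro h
      have h2 := (ordP_deriv_alg D δ hδ P b hb (right_ne_zero_of_mul h)).1
      rw [ordP_mul P hA0 (right_ne_zero_of_mul h)]
      linarith)
    rw [hl] at h1
    rw [ordP_div P hA0 hB0]
    linarith
  · intro hB00
    have hordA := ordP_alg_nonneg (K := K) P ha
    rw [← hA] at hordA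
    have h1 := key 0 (by
      intro h
      have h2 := (ordP_deriv_alg D δ hδ P a ha (right_ne_zero_of_mul h)).2
      rw [ordP_mul P hB0 (right_ne_zero_of_mul h)]
      linarith) (by
      intro h
      have h2 := (ordP_deriv_alg D δ hδ P b hb (right_ne_zero_of_mul h)).2
      rw [ordP_mul P hA0 (right_ne_zero_of_mul h)]
      linarith)
    rw [hl] at h1
    linarith

/-- Statement for elements of `K`. -/
lemma ordP_D (D : Derivation ℤ K K) (δ : S) (hδ0 : δ ≠ 0)
    (hδ : ∀ s : S, ∃ s' : S, algebraMap S K s' = algebraMap S K δ * D (algebraMap S K s))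
    (P : HeightOneSpectrum S) (x : K) (hx : x ≠ 0) (hD : D x ≠ 0) :
    ordP P x - 1 - ordP P (algebraMap S K δ) ≤ ordP P (D x) ∧
      (0 ≤ ordP P x → - ordP P (algebraMap S K δ) ≤ ordP P (D x)) := by
  constructor
  · obtain ⟨a, b, ha, hb, rfl⟩ := exists_frac (S := S) x hx
    exact (ordP_deriv D δ hδ0 hδ P a b ha hb hD).1
  · intro h
    obtain ⟨a, b, ha, hb, hb0, rfl⟩ := exists_frac_of_nonneg P x hx h
    exact (ordP_deriv D δ hδ0 hδ P a b ha hb hD).2 hb0

/-- Existence of the denominator. -/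
lemma exists_denom (R : Type*) [CommRing R] [Algebra R S] [Module.Finite R S] [Algebra R K]
    [IsScalarTower R S K] (D : Derivation ℤ K K)
    (hR : ∀ r : R, ∃ r' : S, algebraMap S K r' = D (algebraMap R K r)) :
    ∃ δ : S, δ ≠ 0 ∧
      ∀ s : S, ∃ s' : S, algebraMap S K s' = algebraMap S K δ * D (algebraMap S K s) := by
  classical
  obtain ⟨T, hT⟩ := (Module.Finite.fg_top : (⊤ : Submodule R S).FG)
  obtain ⟨b, hb⟩ := IsLocalization.exist_integer_multiples_of_finset (nonZeroDivisors S)
    (T.image fun s => D (algebraMap S K s))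
  refine ⟨b, nonZeroDivisors.coe_ne_zero b, ?_⟩
  intro s
  have hs : s ∈ Submodule.span R (T : Set S) := by
    rw [hT]
    trivial
  induction hs using Submodule.span_induction with
  | mem x hx =>
    obtain ⟨s', hs'⟩ := hb (D (algebraMap S K x)) (Finset.mem_image_of_mem _ hx)
    refine ⟨s', ?_⟩
    rw [hs', Algebra.smul_def]
  | zero => exact ⟨0, by simp⟩
  | add x y _ _ hx hy =>
    obtain ⟨x', hx'⟩ := hx
    obtain ⟨y', hy'⟩ := hy
    refine ⟨x' + y', ?_⟩
    rw [map_add, map_add, map_add, hx', hy']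
    ring
  | smul r x _ hx =>
    obtain ⟨x', hx'⟩ := hx
    obtain ⟨r', hr'⟩ := hR r
    refine ⟨algebraMap R S r * x' + x * (b * r'), ?_⟩
    rw [Algebra.smul_def, map_mul, map_add, map_mul, map_mul, map_mul, hx', hr',
      Derivation.leibniz, ← IsScalarTower.algebraMap_apply R S K]
    simp only [smul_eq_mul]
    ring

end Deriv

end Pool.Agent.TH951.W.UB
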